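import Pool.Agent.Helper89.GP.GoalsA
import Pool.Agent.Helper89.GP.Basic

/-!
# Two comparisons halve the number of linear extensions: the negative part (NNA)
-/

namespace Pool.Agent.Helper39.GP

open Finset MeasureTheory Pool.Agent.Helper89.GP

noncomputable section

theorem integrable_mon (k : ℕ) :
    IntegrableOn (fun s : ℝ => Real.exp (-s) * s ^ k) (Set.Ioi 0) := by
  have h := Real.GammaIntegral_convergent (s := (k : ℝ) + 1) (by positivity)
  refine h.congr_fun ?_ measurableSet_Ioi
  intro s _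
  show Real.exp (-s) * s ^ ((k : ℝ) + 1 - 1) = Real.exp (-s) * s ^ k
  rw [add_sub_cancel_right, Real.rpow_natCast]

theorem integral_mon (k : ℕ) :
    ∫ s in Set.Ioi (0 : ℝ), Real.exp (-s) * s ^ k = (k.factorial : ℝ) := by
  have h := Real.Gamma_eq_integral (s := (k : ℝ) + 1) (by positivity)
  rw [Real.Gamma_nat_eq_factorial] at h
  rw [h]
  refine setIntegral_congr_fun measurableSet_Ioi ?_
  intro s _
  show Real.exp (-s) * s ^ k = Real.exp (-s) * s ^ ((k : ℝ) + 1 - 1)
  rw [add_sub_cancel_right, Real.rpow_natCast]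

theorem poly_int {ι : Type*} (S : Finset ι) (a : ι → ℝ) (e : ι → ℕ) :
    IntegrableOn (fun s : ℝ => Real.exp (-s) * ∑ i ∈ S, a i * s ^ e i / ((e i).factorial : ℝ))
      (Set.Ioi 0) ∧
    ∫ s in Set.Ioi (0 : ℝ), Real.exp (-s) * ∑ i ∈ S, a i * s ^ e i / ((e i).factorial : ℝ) =
      ∑ i ∈ S, a i := by
  have h0 : (fun s : ℝ => Real.exp (-s) * ∑ i ∈ S, a i * s ^ e i / ((e i).factorial : ℝ)) =
      fun s : ℝ => ∑ i ∈ S, a i / ((e i).factorial : ℝ) * (Real.exp (-s) * s ^ e i) := by
    funext s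
    rw [Finset.mul_sum]
    exact Finset.sum_congr rfl fun i _ => by ring
  have h1 : ∀ i ∈ S, IntegrableOn (fun s : ℝ =>
      a i / ((e i).factorial : ℝ) * (Real.exp (-s) * s ^ e i)) (Set.Ioi 0) := fun i _ =>
    (integrable_mon (e i)).const_mul _
  rw [h0]
  refine ⟨integrable_finsetSum S h1, ?_⟩
  rw [integral_finsetSum S h1]
  refine Finset.sum_congr rfl fun i _ => ?_
  rw [integral_const_mul, integral_mon]
  have : ((e i).factorial : ℝ) ≠ 0 := by positivity
  field_simp

theorem key {ι κ : Type*} (S : Finset ι) (a : ι → ℝ) (e : ι → ℕ) (T : Finset κ) (b : κ → ℝ)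
    (f : κ → ℕ) (h : ∀ s : ℝ, 0 ≤ s → ∑ i ∈ S, a i * s ^ e i / ((e i).factorial : ℝ) ≤
      ∑ i ∈ T, b i * s ^ f i / ((f i).factorial : ℝ)) : ∑ i ∈ S, a i ≤ ∑ i ∈ T, b i := by
  rw [← (poly_int S a e).2, ← (poly_int T b f).2]
  refine setIntegral_mono_on (poly_int S a e).1 (poly_int T b f).1 measurableSet_Ioi ?_
  intro s hs
  exact mul_le_mul_of_nonneg_left (h s (le_of_lt hs)) (Real.exp_pos _).le

theorem add_pow_fact (r s : ℝ) (k : ℕ) : (r + s) ^ k / (k.factorial : ℝ) =
    ∑ p ∈ antidiagonal k, r ^ p.1 / (p.1.factorial : ℝ) * (s ^ p.2 / (p.2.factorial : ℝ)) := by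
  rw [(Commute.all r s).add_pow', Finset.sum_div]
  refine Finset.sum_congr rfl fun p hp => ?_
  rw [nsmul_eq_mul]
  have h1 := Nat.add_choose_mul_factorial_mul_factorial p.1 p.2
  have h2 : p.1 + p.2 = k := mem_antidiagonal.1 hp
  rw [h2, ← Nat.choose_symm_of_eq_add h2.symm] at h1
  have h3 : ((k.choose p.1 : ℕ) : ℝ) * (p.1.factorial : ℝ) * (p.2.factorial : ℝ) =
      (k.factorial : ℝ) := by exact_mod_cast h1
  have h4 : (p.1.factorial : ℝ) ≠ 0 := by positivity
  have h5 : (p.2.factorial : ℝ) ≠ 0 := by positivity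
  have h6 : (k.factorial : ℝ) ≠ 0 := by positivity
  rw [div_mul_div_comm, div_eq_div_iff h6 (mul_ne_zero h4 h5), ← h3]
  ring

theorem sum_bq {n : ℕ} (R : Fin n → Fin n → Prop) (u v : Fin n) :
    ∑ k ∈ range n, bq R v u k = An R u v := by
  classical
  unfold An
  rw [Pr_eq_Ex]
  have h1 : ∀ k ∈ range n, bq R v u k =
      Ex R fun σ => if po σ u = po σ v + (k + 1) then (1 : ℝ) else 0 := fun k _ => by
    unfold bq
    rw [Pr_eq_Ex]
  rw [Finset.sum_congr rfl h1, ← Ex_sum]
  refine Ex_congr fun σ _ => ?_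
  by_cases h : po σ v < po σ u
  · rw [if_pos h, Finset.sum_eq_single (po σ u - po σ v - 1)]
    · rw [if_pos]; omega
    · intro b _ hb
      rw [if_neg]; omega
    · intro hb
      exfalso
      apply hb
      rw [mem_range]
      have := po_lt_n σ u
      omega
  · rw [if_neg h]
    exact Finset.sum_eq_zero fun k _ => by rw [if_neg]; omega

/-- NNA. -/
theorem nna (hprd : PrdStmt) : NnaStmt := by
  intro n R u v hne huv
  have h := hprd n R v u
  set b : ℕ → ℝ := fun k => bq R v u k with hb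
  have hsum : ∑ k ∈ range n, b k = An R u v := sum_bq R u v
  have hn : 0 < n := by
    rcases Nat.eq_zero_or_pos n with h0 | h0
    · subst h0; exact u.elim0
    · exact h0
  have hF0 : Ff R v u 0 = b 0 := by
    unfold Ff
    rw [Finset.sum_eq_single 0]
    · simp [hb]
    · intro k _ hk
      rw [zero_pow hk]; simp
    · intro h0
      exact absurd (mem_range.2 hn) h0
  have hFrs : ∀ r s : ℝ, Ff R v u (r + s) =
      ∑ x ∈ (range n).sigma fun k => antidiagonal k,
        (b x.1 * r ^ x.2.1 / (x.2.1.factorial : ℝ)) * s ^ x.2.2 / (x.2.2.factorial : ℝ) := by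
    intro r s
    rw [Finset.sum_sigma]
    unfold Ff
    refine Finset.sum_congr rfl fun k _ => ?_
    rw [mul_div_assoc, add_pow_fact, Finset.mul_sum]
    exact Finset.sum_congr rfl fun p _ => by ring
  have h1 : ∀ r : ℝ, 0 ≤ r →
      ∑ x ∈ (range n).sigma fun k => antidiagonal k,
        (b 0 * b x.1) * r ^ x.2.1 / (x.2.1.factorial : ℝ) ≤
      ∑ k ∈ range n, (An R u v * b k) * r ^ k / (k.factorial : ℝ) := by
    intro r hr
    have h2 := key ((range n).sigma fun k => antidiagonal k)
      (fun x => b 0 * (b x.1 * r ^ x.2.1 / (x.2.1.factorial : ℝ))) (fun x => x.2.2)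
      (range n) (fun k => Ff R v u r * b k) (fun k => k) (by
        intro s hs
        have h3 := h r s hne huv.symm hr hs
        rw [hF0, hFrs] at h3
        have h4 : Ff R v u s = ∑ k ∈ range n, b k * s ^ k / (k.factorial : ℝ) := rfl
        rw [h4, Finset.mul_sum, Finset.mul_sum] at h3
        refine le_trans (le_of_eq ?_) (le_trans h3 (le_of_eq ?_))
        · exact Finset.sum_congr rfl fun x _ => by ring
        · exact Finset.sum_congr rfl fun x _ => by ring)
    have h5 : ∑ k ∈ range n, Ff R v u r * b k = Ff R v u r * An R u v := by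
      rw [← Finset.mul_sum, hsum]
    rw [h5] at h2
    have h4 : Ff R v u r = ∑ k ∈ range n, b k * r ^ k / (k.factorial : ℝ) := rfl
    rw [h4, Finset.sum_mul] at h2
    refine le_trans (le_of_eq ?_) (le_trans h2 (le_of_eq ?_))
    · exact Finset.sum_congr rfl fun x _ => by ring
    · exact Finset.sum_congr rfl fun x _ => by ring
  have h2 := key ((range n).sigma fun k => antidiagonal k) (fun x => b 0 * b x.1)
    (fun x => x.2.1) (range n) (fun k => An R u v * b k) (fun k => k) h1
  have h5 : ∑ k ∈ range n, An R u v * b k = An R u v * An R u v := by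
    rw [← Finset.mul_sum, hsum]
  rw [Finset.sum_sigma, h5] at h2
  have h3 : b 0 * Nn R u v = ∑ k ∈ range n, ∑ _p ∈ antidiagonal k, b 0 * b k := by
    unfold Nn
    rw [Finset.mul_sum]
    refine Finset.sum_congr rfl fun k _ => ?_
    rw [Finset.sum_const, Finset.Nat.card_antidiagonal, nsmul_eq_mul]
    push_cast
    ring
  show b 0 * Nn R u v ≤ _
  rw [h3, sq]
  exact h2

end

end Pool.Agent.Helper39.GP
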